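import Pool.Agent.Helper34.R9.Sheet

/-! # MP_798d7d, ranks nine to eleven: row ROOT -/

set_option autoImplicit false

namespace Pool.Helper34.R9

open Polynomial

theorem S61.res_card (q n r : ℕ) (hq : 0 < q) (F : Finset ℕ) (hF : ∀ b ∈ F, b < n ∧ b % q = r) :
    F.card ≤ n / q + 1 := by
  rw [← Finset.card_range (n / q + 1)]
  apply Finset.card_le_card_of_injOn (fun b => b / q)
  · intro b hb
    have h := hF b hb
    rw [Finset.mem_coe, Finset.mem_range]
    have : b / q ≤ n / q := Nat.div_le_div_right h.1.le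
    show b / q < n / q + 1
    omega
  · intro b hb b' hb' h
    have h1 := hF b hb
    have h2 := hF b' hb'
    have h3 : b / q = b' / q := h
    rw [← Nat.div_add_mod b q, ← Nat.div_add_mod b' q, h3, h1.2, h2.2]

theorem st_ROOT : ST_ROOT := by
  classical
  intro W d q n hq hW hc F hF
  haveI : Fact q.Prime := ⟨hq⟩
  set V : (ZMod q)[X] := W.map (Int.castRingHom (ZMod q)) with hV
  have hVd : V.coeff d ≠ 0 := by
    rw [hV, coeff_map]
    intro h
    exact hc ((ZMod.intCast_zmod_eq_zero_iff_dvd _ q).mp h)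
  have hV0 : V ≠ 0 := by
    intro h
    rw [h, coeff_zero] at hVd
    exact hVd rfl
  have hdeg : V.natDegree ≤ d := natDegree_map_le.trans hW
  have hroots : V.roots.toFinset.card ≤ d :=
    (Multiset.toFinset_card_le _).trans ((card_roots' V).trans hdeg)
  have h1 : F.card ≤ (n / q + 1) * V.roots.toFinset.card := by
    apply Finset.card_le_mul_card_image_of_maps_to (f := fun b : ℕ => (b : ZMod q))
    · intro b hb
      rw [Multiset.mem_toFinset, mem_roots hV0, IsRoot, hV]
      have h2 : ((W.eval (b : ℤ) : ℤ) : ZMod q) = 0 :=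
        (ZMod.intCast_zmod_eq_zero_iff_dvd _ q).mpr (hF b hb).2
      rw [← Int.cast_natCast (R := ZMod q) b, ← eq_intCast (Int.castRingHom (ZMod q)) (b : ℤ),
        eval_map, eval₂_hom]
      exact h2
    · intro y _
      apply S61.res_card q n y.val hq.pos
      intro b hb
      rw [Finset.mem_filter] at hb
      refine ⟨(hF b hb.1).1, ?_⟩
      rw [← hb.2, ZMod.val_natCast]
  calc F.card ≤ (n / q + 1) * V.roots.toFinset.card := h1
    _ ≤ (n / q + 1) * d := Nat.mul_le_mul_left _ hroots
    _ = d * (n / q + 1) := mul_comm _ _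

end Pool.Helper34.R9
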