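import Pool.Agent.Helper34.R9.Sheet

/-! # MP_798d7d, ranks nine to eleven: row SV3 -/

set_option autoImplicit false

namespace Pool.Helper34.R9

open Polynomial

namespace S61

/-- the quadratic polynomial `E - (zb + M X)²` -/
noncomputable def LL (M zb E : ℤ) : ℤ[X] := C E - (C zb + C M * X) ^ 2

theorem lin_deg (M zb : ℤ) : (C zb + C M * X : ℤ[X]).natDegree ≤ 1 := by
  compute_degree

theorem LL_deg (M zb E : ℤ) : (LL M zb E).natDegree ≤ 2 := by
  unfold LL
  compute_degree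

theorem LL_coeff (M zb E : ℤ) : (LL M zb E).coeff 2 = -M ^ 2 := by
  unfold LL
  have h1 : ((C zb + C M * X : ℤ[X]) ^ 2).coeff (2 * 1) = ((C zb + C M * X : ℤ[X]).coeff 1) ^ 2 :=
    coeff_pow_of_natDegree_le (lin_deg M zb)
  have h2 : (C zb + C M * X : ℤ[X]).coeff 1 = M := by
    rw [coeff_add, coeff_C, if_neg one_ne_zero, zero_add, coeff_C_mul, coeff_X_one, mul_one]
  rw [coeff_sub, coeff_C, if_neg (by norm_num), zero_sub]
  rw [mul_one] at h1
  rw [h1, h2]

/-- the polynomial of degree ten -/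
noncomputable def WW (P : ℤ[X]) (M κ zb E : ℤ) : ℤ[X] :=
  ∑ i ∈ Finset.range 6, C (P.coeff i * κ ^ (5 - i)) * LL M zb E ^ i

theorem term_deg (P : ℤ[X]) (M κ zb E : ℤ) (i : ℕ) :
    (C (P.coeff i * κ ^ (5 - i)) * LL M zb E ^ i).natDegree ≤ i * 2 := by
  refine (natDegree_C_mul_le _ _).trans ?_
  refine natDegree_pow_le.trans ?_
  exact Nat.mul_le_mul_left _ (LL_deg M zb E)

theorem WW_deg (P : ℤ[X]) (M κ zb E : ℤ) : (WW P M κ zb E).natDegree ≤ 10 := by
  unfold WW
  apply natDegree_sum_le_of_forall_le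
  intro i hi
  have h1 := Finset.mem_range.mp hi
  exact (term_deg P M κ zb E i).trans (by omega)

theorem WW_coeff (P : ℤ[X]) (M κ zb E : ℤ) : (WW P M κ zb E).coeff 10 = -(P.coeff 5 * M ^ 10) := by
  unfold WW
  rw [finsetSum_coeff, Finset.sum_range_succ, Finset.sum_eq_zero, zero_add]
  · have h1 : (LL M zb E ^ 5).coeff (5 * 2) = ((LL M zb E).coeff 2) ^ 5 :=
      coeff_pow_of_natDegree_le (LL_deg M zb E)
    rw [show (5 * 2 : ℕ) = 10 by norm_num, LL_coeff] at h1
    rw [coeff_C_mul, h1]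
    ring
  · intro i hi
    have h1 := Finset.mem_range.mp hi
    apply coeff_eq_zero_of_natDegree_lt
    exact (term_deg P M κ zb E i).trans_lt (by omega)

theorem WW_eval (P : ℤ[X]) (M κ zb E : ℤ) (hP : P.natDegree = 5) (b : ℕ) (t : ℤ)
    (ht : κ * t = E - (zb + M * (b : ℤ)) ^ 2) :
    (WW P M κ zb E).eval (b : ℤ) = κ ^ 5 * P.eval t := by
  unfold WW
  rw [eval_finsetSum, eval_eq_sum_range, hP, Finset.mul_sum]
  apply Finset.sum_congr rfl
  intro i hi
  have h1 := Finset.mem_range.mp hi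
  have h2 : (LL M zb E).eval (b : ℤ) = κ * t := by
    unfold LL
    rw [ht]
    simp
  rw [eval_mul, eval_C, eval_pow, h2, mul_pow]
  have h3 : κ ^ 5 = κ ^ (5 - i) * κ ^ i := by
    rw [← pow_add]
    congr 1
    omega
  rw [h3]
  ring

end S61

theorem st_SV3 (hR : ST_ROOT) : ST_SV3 := by
  intro P q n M κ zb E hq hP hl hM F hF
  have hpz : Prime (q : ℤ) := Nat.prime_iff_prime_int.mp hq
  apply hR (S61.WW P M κ zb E) 10 q n hq (S61.WW_deg P M κ zb E)
  · rw [S61.WW_coeff]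
    intro h
    have h1 := (dvd_neg).mp h
    rcases hpz.dvd_or_dvd h1 with h2 | h2
    · apply hl
      rw [leadingCoeff, hP]
      exact h2
    · exact hM (hpz.dvd_of_dvd_pow h2)
  · intro b hb
    obtain ⟨h1, t, ht, h2⟩ := hF b hb
    refine ⟨h1, ?_⟩
    rw [S61.WW_eval P M κ zb E hP b t ht]
    exact Dvd.dvd.mul_left h2 _

end Pool.Helper34.R9
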